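import Mathlib

/-!
# A 3-critical graph on 21 vertices whose domination and independent domination numbers differ

We exhibit a graph `G` on 21 vertices with domination number 3, independent domination number 4,
such that adding any missing edge lowers the domination number below 3.  The complement of `G` is
given by its neighbourhoods, written as bit masks.
-/

set_option autoImplicit false

namespace Pool.Agent.Results.MP_5ead0a_co.SmallThreeCritical

/-- `D` is a dominating set of `G`: every vertex outside `D` has a neighbour in `D`. -/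
def IsDominating {V : Type*} (G : SimpleGraph V) (D : Finset V) : Prop :=
  ∀ v : V, v ∉ D → ∃ u ∈ D, G.Adj v u

/-- The domination number of `G`: the least size of a dominating set. -/
noncomputable def dominationNumber {V : Type*} (G : SimpleGraph V) : ℕ :=
  sInf {k : ℕ | ∃ D : Finset V, IsDominating G D ∧ D.card = k}

/-- The independent domination number of `G`: the least size of a dominating set no two of whose
vertices are adjacent. -/
noncomputable def indepDominationNumber {V : Type*} (G : SimpleGraph V) : ℕ :=
  sInf {k : ℕ | ∃ D : Finset V, IsDominating G D ∧ (∀ u ∈ D, ∀ v ∈ D, ¬ G.Adj u v) ∧ D.card = k}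

/-- `G` is 3-critical: its domination number is 3, and adding the edge `uv` between any two
distinct non-adjacent vertices gives a graph of domination number less than 3. -/
def IsThreeCritical {V : Type*} (G : SimpleGraph V) : Prop :=
  dominationNumber G = 3 ∧
    ∀ u v : V, u ≠ v → ¬ G.Adj u v → dominationNumber (G ⊔ SimpleGraph.edge u v) < 3

/-- Bit masks of the neighbourhoods in the complement graph. -/
def mask : Fin 21 → ℕ :=
  ![317440, 634880, 1269760, 442880, 624128, 1248256, 399872, 538112, 1076224, 918744, 1575856,
    1316193, 796867, 1593734, 1351949, 868379, 1736758, 1376876, 186953, 112274, 224548]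

/-- Adjacency in the complement graph. -/
def hadj (u v : Fin 21) : Bool := (mask u).testBit v

theorem hadj_symm : ∀ u v : Fin 21, hadj u v = hadj v u := by decide +kernel

theorem hadj_irrefl : ∀ u : Fin 21, hadj u u = false := by decide +kernel

/-- The graph: distinct vertices that are not adjacent in the complement. -/
def graph : SimpleGraph (Fin 21) where
  Adj u v := u ≠ v ∧ hadj u v = false
  symm := ⟨by
    intro u v h
    exact ⟨h.1.symm, by rw [hadj_symm]; exact h.2⟩⟩
  loopless := ⟨by
    intro u h
    exact h.1 rfl⟩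

theorem pair_bad : ∀ a b : Fin 21, ∃ v : Fin 21, v ≠ a ∧ v ≠ b ∧ hadj v a = true ∧
    hadj v b = true := by decide +kernel

theorem triple_bad : ∀ a b c : Fin 21, hadj a b = true → hadj a c = true → hadj b c = true →
    ∃ v : Fin 21, hadj v a = true ∧ hadj v b = true ∧ hadj v c = true := by decide +kernel

theorem triple_good : ∃ a b c : Fin 21, a ≠ b ∧ a ≠ c ∧ b ≠ c ∧
    ∀ v : Fin 21, v = a ∨ v = b ∨ v = c ∨ hadj v a = false ∨ hadj v b = false ∨
      hadj v c = false := by decide +kernel

theorem quad_good : ∃ a b c d : Fin 21, (a ≠ b ∧ a ≠ c ∧ a ≠ d ∧ b ≠ c ∧ b ≠ d ∧ c ≠ d) ∧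
    (hadj a b = true ∧ hadj a c = true ∧ hadj a d = true ∧ hadj b c = true ∧ hadj b d = true ∧
      hadj c d = true) ∧
    ∀ v : Fin 21, v = a ∨ v = b ∨ v = c ∨ v = d ∨ hadj v a = false ∨ hadj v b = false ∨
      hadj v c = false ∨ hadj v d = false := by decide +kernel

/-- Edge criticality in the complement: for each edge `uv` of the complement, some vertex `y`
shares with `u` the single common neighbour `v`, or shares with `v` the single common
neighbour `u`. -/
theorem crit : ∀ u v : Fin 21, hadj u v = true →
    (∃ y : Fin 21, y ≠ u ∧ y ≠ v ∧ ∀ w : Fin 21, w = u ∨ w = y ∨ w = v ∨ hadj w u = false ∨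
        hadj w y = false) ∨
    (∃ y : Fin 21, y ≠ u ∧ y ≠ v ∧ ∀ w : Fin 21, w = v ∨ w = y ∨ w = u ∨ hadj w v = false ∨
        hadj w y = false) := by decide +kernel

theorem not_dominating_pair (a b : Fin 21) : ¬ IsDominating graph {a, b} := by
  intro h
  obtain ⟨v, hva, hvb, h1, h2⟩ := pair_bad a b
  obtain ⟨u, hu, huv⟩ := h v (by simp [hva, hvb])
  simp only [Finset.mem_insert, Finset.mem_singleton] at hu
  rcases hu with rfl | rfl
  · exact absurd huv.2 (by rw [h1]; decide)
  · exact absurd huv.2 (by rw [h2]; decide)

theorem IsDominating.mono {V : Type*} {G : SimpleGraph V} {D E : Finset V}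
    (h : IsDominating G D) (hDE : D ⊆ E) : IsDominating G E := by
  intro v hv
  obtain ⟨u, hu, huv⟩ := h v (fun hvD => hv (hDE hvD))
  exact ⟨u, hDE hu, huv⟩

theorem subset_pair_of_card_le_two {D : Finset (Fin 21)} (h : D.card ≤ 2) :
    ∃ a b : Fin 21, D ⊆ {a, b} := by
  rcases Nat.lt_or_ge D.card 2 with h1 | h1
  · rcases Nat.lt_or_ge D.card 1 with h0 | h0
    · have : D = ∅ := Finset.card_eq_zero.mp (by omega)
      exact ⟨0, 0, by simp [this]⟩
    · obtain ⟨a, rfl⟩ := Finset.card_eq_one.mp (show D.card = 1 by omega)
      exact ⟨a, a, by simp⟩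
  · obtain ⟨a, b, _, rfl⟩ := Finset.card_eq_two.mp (show D.card = 2 by omega)
    exact ⟨a, b, Finset.Subset.refl _⟩

theorem three_le_card {D : Finset (Fin 21)} (h : IsDominating graph D) : 3 ≤ D.card := by
  by_contra hlt
  obtain ⟨a, b, hab⟩ := subset_pair_of_card_le_two (D := D) (by omega)
  exact not_dominating_pair a b (h.mono hab)

theorem dominationNumber_graph : dominationNumber graph = 3 := by
  apply le_antisymm
  · obtain ⟨a, b, c, hab, hac, hbc, h⟩ := triple_good
    apply Nat.sInf_le
    refine ⟨{a, b, c}, ?_, ?_⟩
    · intro v hv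
      simp only [Finset.mem_insert, Finset.mem_singleton, not_or] at hv
      rcases h v with h | h | h | h | h | h
      · exact absurd h hv.1
      · exact absurd h hv.2.1
      · exact absurd h hv.2.2
      · exact ⟨a, by simp, hv.1, h⟩
      · exact ⟨b, by simp, hv.2.1, h⟩
      · exact ⟨c, by simp, hv.2.2, h⟩
    · rw [Finset.card_eq_three]
      exact ⟨a, b, c, hab, hac, hbc, rfl⟩
  · apply le_csInf
    · exact ⟨_, Finset.univ, fun v hv => absurd (Finset.mem_univ v) hv, rfl⟩
    · rintro k ⟨D, hD, rfl⟩
      exact three_le_card hD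

theorem graph_adj {u v : Fin 21} : graph.Adj u v ↔ u ≠ v ∧ hadj u v = false := Iff.rfl

theorem critical (u v : Fin 21) (huv : u ≠ v) (hn : ¬ graph.Adj u v) :
    dominationNumber (graph ⊔ SimpleGraph.edge u v) < 3 := by
  have hh : hadj u v = true := by
    by_contra hc
    exact hn ⟨huv, by simpa using hc⟩
  have key : ∃ a b : Fin 21, a ≠ b ∧ IsDominating (graph ⊔ SimpleGraph.edge u v) {a, b} := by
    rcases crit u v hh with ⟨y, hyu, hyv, h⟩ | ⟨y, hyu, hyv, h⟩
    · refine ⟨u, y, hyu.symm, ?_⟩
      intro w hw
      simp only [Finset.mem_insert, Finset.mem_singleton, not_or] at hw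
      rcases h w with h | h | h | h | h
      · exact absurd h hw.1
      · exact absurd h hw.2
      · refine ⟨u, by simp, ?_⟩
        subst h
        rw [SimpleGraph.sup_adj]
        right
        rw [SimpleGraph.edge_adj]
        exact ⟨Or.inr ⟨rfl, rfl⟩, huv.symm⟩
      · exact ⟨u, by simp, Or.inl ⟨hw.1, h⟩⟩
      · exact ⟨y, by simp, Or.inl ⟨hw.2, h⟩⟩
    · refine ⟨v, y, hyv.symm, ?_⟩
      intro w hw
      simp only [Finset.mem_insert, Finset.mem_singleton, not_or] at hw
      rcases h w with h | h | h | h | h
      · exact absurd h hw.1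
      · exact absurd h hw.2
      · refine ⟨v, by simp, ?_⟩
        subst h
        rw [SimpleGraph.sup_adj]
        right
        rw [SimpleGraph.edge_adj]
        exact ⟨Or.inl ⟨rfl, rfl⟩, huv⟩
      · exact ⟨v, by simp, Or.inl ⟨hw.1, h⟩⟩
      · exact ⟨y, by simp, Or.inl ⟨hw.2, h⟩⟩
  obtain ⟨a, b, hab, hdom⟩ := key
  refine lt_of_le_of_lt (Nat.sInf_le ⟨{a, b}, hdom, rfl⟩) ?_
  rw [Finset.card_pair hab]
  norm_num

theorem indepDominationNumber_graph : indepDominationNumber graph = 4 := by
  apply le_antisymm
  · obtain ⟨a, b, c, d, ⟨hab, hac, had, hbc, hbd, hcd⟩, ⟨kab, kac, kad, kbc, kbd, kcd⟩, h⟩ :=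
      quad_good
    apply Nat.sInf_le
    refine ⟨{a, b, c, d}, ?_, ?_, ?_⟩
    · intro v hv
      simp only [Finset.mem_insert, Finset.mem_singleton, not_or] at hv
      rcases h v with h | h | h | h | h | h | h | h
      · exact absurd h hv.1
      · exact absurd h hv.2.1
      · exact absurd h hv.2.2.1
      · exact absurd h hv.2.2.2
      · exact ⟨a, by simp, hv.1, h⟩
      · exact ⟨b, by simp, hv.2.1, h⟩
      · exact ⟨c, by simp, hv.2.2.1, h⟩
      · exact ⟨d, by simp, hv.2.2.2, h⟩
    · have hsym : ∀ x y : Fin 21, hadj x y = true → ¬ graph.Adj x y ∧ ¬ graph.Adj y x := by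
        intro x y hxy
        refine ⟨fun hx => ?_, fun hx => ?_⟩
        · rw [graph_adj, hxy] at hx
          exact absurd hx.2 (by decide)
        · rw [graph_adj, hadj_symm, hxy] at hx
          exact absurd hx.2 (by decide)
      intro x hx y hy
      simp only [Finset.mem_insert, Finset.mem_singleton] at hx hy
      rcases hx with rfl | rfl | rfl | rfl <;> rcases hy with rfl | rfl | rfl | rfl <;>
        first
          | exact SimpleGraph.irrefl _
          | exact (hsym _ _ kab).1 | exact (hsym _ _ kab).2
          | exact (hsym _ _ kac).1 | exact (hsym _ _ kac).2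
          | exact (hsym _ _ kad).1 | exact (hsym _ _ kad).2
          | exact (hsym _ _ kbc).1 | exact (hsym _ _ kbc).2
          | exact (hsym _ _ kbd).1 | exact (hsym _ _ kbd).2
          | exact (hsym _ _ kcd).1 | exact (hsym _ _ kcd).2
    · rw [Finset.card_insert_of_notMem, Finset.card_insert_of_notMem,
        Finset.card_insert_of_notMem, Finset.card_singleton]
      · simpa using hcd
      · simp [hbc, hbd]
      · simp [hab, hac, had]
  · apply le_csInf
    · obtain ⟨a, b, c, d, ⟨hab, hac, had, hbc, hbd, hcd⟩, ⟨kab, kac, kad, kbc, kbd, kcd⟩, h⟩ :=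
        quad_good
      refine ⟨_, {a, b, c, d}, ?_, ?_, rfl⟩
      · intro v hv
        simp only [Finset.mem_insert, Finset.mem_singleton, not_or] at hv
        rcases h v with h | h | h | h | h | h | h | h
        · exact absurd h hv.1
        · exact absurd h hv.2.1
        · exact absurd h hv.2.2.1
        · exact absurd h hv.2.2.2
        · exact ⟨a, by simp, hv.1, h⟩
        · exact ⟨b, by simp, hv.2.1, h⟩
        · exact ⟨c, by simp, hv.2.2.1, h⟩
        · exact ⟨d, by simp, hv.2.2.2, h⟩
      · have hsym : ∀ x y : Fin 21, hadj x y = true → ¬ graph.Adj x y ∧ ¬ graph.Adj y x := by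
          intro x y hxy
          refine ⟨fun hx => ?_, fun hx => ?_⟩
          · rw [graph_adj, hxy] at hx
            exact absurd hx.2 (by decide)
          · rw [graph_adj, hadj_symm, hxy] at hx
            exact absurd hx.2 (by decide)
        intro x hx y hy
        simp only [Finset.mem_insert, Finset.mem_singleton] at hx hy
        rcases hx with rfl | rfl | rfl | rfl <;> rcases hy with rfl | rfl | rfl | rfl <;>
          first
            | exact SimpleGraph.irrefl _
            | exact (hsym _ _ kab).1 | exact (hsym _ _ kab).2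
            | exact (hsym _ _ kac).1 | exact (hsym _ _ kac).2
            | exact (hsym _ _ kad).1 | exact (hsym _ _ kad).2
            | exact (hsym _ _ kbc).1 | exact (hsym _ _ kbc).2
            | exact (hsym _ _ kbd).1 | exact (hsym _ _ kbd).2
            | exact (hsym _ _ kcd).1 | exact (hsym _ _ kcd).2
    · rintro k ⟨D, hD, hind, rfl⟩
      have h3 := three_le_card hD
      by_contra hlt
      have hc : D.card = 3 := by omega
      obtain ⟨a, b, c, hab, hac, hbc, rfl⟩ := Finset.card_eq_three.mp hc
      have hna : ∀ x ∈ ({a, b, c} : Finset (Fin 21)), ∀ y ∈ ({a, b, c} : Finset (Fin 21)),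
          x ≠ y → hadj x y = true := by
        intro x hx y hy hxy
        by_contra hcon
        exact hind x hx y hy ⟨hxy, by simpa using hcon⟩
      obtain ⟨v, h1, h2, h4⟩ := triple_bad a b c (hna a (by simp) b (by simp) hab)
        (hna a (by simp) c (by simp) hac) (hna b (by simp) c (by simp) hbc)
      have hva : v ≠ a := by
        rintro rfl
        rw [hadj_irrefl] at h1
        exact absurd h1 (by decide)
      have hvb : v ≠ b := by
        rintro rfl
        rw [hadj_irrefl] at h2
        exact absurd h2 (by decide)
      have hvc : v ≠ c := by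
        rintro rfl
        rw [hadj_irrefl] at h4
        exact absurd h4 (by decide)
      obtain ⟨u, hu, huv⟩ := hD v (by simp [hva, hvb, hvc])
      simp only [Finset.mem_insert, Finset.mem_singleton] at hu
      rcases hu with rfl | rfl | rfl
      · exact absurd huv.2 (by rw [h1]; decide)
      · exact absurd huv.2 (by rw [h2]; decide)
      · exact absurd huv.2 (by rw [h4]; decide)

/-- There is a 3-critical graph on 21 vertices with domination number 3 and independent
domination number 4. -/
theorem result : ∃ G : SimpleGraph (Fin 21),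
    IsThreeCritical G ∧ dominationNumber G = 3 ∧ indepDominationNumber G = 4 :=
  ⟨graph, ⟨dominationNumber_graph, critical⟩, dominationNumber_graph, indepDominationNumber_graph⟩

end Pool.Agent.Results.MP_5ead0a_co.SmallThreeCritical
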